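import Mathlib

/-!
Digit combinatorics for a coding of the dyadic odometer whose visit counts are spread out at every scale.
-/

set_option autoImplicit false

open Finset

namespace Pool.Agent.MP_1dc7bd_an.H35

/-- block lengths -/
def hh (n : ℕ) : ℕ := 2 ^ (n * n)
/-- digit ranges -/
def qq (n : ℕ) : ℕ := 2 ^ (2 * n + 1)
/-- weights -/
def ww (n : ℕ) : ℕ := 2 ^ (3 * n)
/-- the length of the active zone at the start of a block -/
def ln (n : ℕ) : ℕ := 2 ^ (10 * n + 3)

theorem hh_pos (n : ℕ) : 0 < hh n := by unfold hh; positivity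
theorem qq_pos (n : ℕ) : 0 < qq n := by unfold qq; positivity
theorem ww_pos (n : ℕ) : 0 < ww n := by unfold ww; positivity
theorem hh_succ (n : ℕ) : hh (n + 1) = hh n * qq n := by
  unfold hh qq; rw [← pow_add]; congr 1; ring
theorem hh_dvd {a b : ℕ} (h : a ≤ b) : hh a ∣ hh b := pow_dvd_pow 2 (Nat.mul_le_mul h h)
theorem ln_le {n : ℕ} (h : 20 ≤ n) : ln n ≤ hh n :=
  Nat.pow_le_pow_right (by norm_num) (by nlinarith)
theorem pow_dvd_hh {n : ℕ} (h : 20 ≤ n) : 2 ^ (n + 1) ∣ hh n := pow_dvd_pow 2 (by nlinarith)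

/-- the `n`-th digit -/
def dg (n t : ℕ) : ℕ := t / hh n % qq n

theorem dg_lt (n t : ℕ) : dg n t < qq n := Nat.mod_lt _ (qq_pos n)

/-- the signed modification at position `r` of a block with digit `c` and amplitude `p` -/
def sg (n r c p : ℕ) : ℤ :=
  if c + 1 < qq n then (if r % 2 ^ (n + 1) = 2 ^ n ∧ r / 2 ^ (n + 1) < p then 1 else 0)
  else -(if r % 2 ^ (n + 1) = 2 ^ n + 1 ∧ r / 2 ^ (n + 1) < (qq n - 1) * p then 1 else 0)

theorem sum_count (D e s ρ : ℕ) (he : e < D) (hρ : D * s ≤ ρ) :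
    ∑ r ∈ range ρ, (if r % D = e ∧ r / D < s then (1 : ℤ) else 0) = s := by
  rw [sum_boole]
  have : (range ρ).filter (fun r => r % D = e ∧ r / D < s) = (range s).image fun j => D * j + e := by
    ext r
    simp only [mem_filter, mem_range, mem_image]
    constructor
    · rintro ⟨-, h1, h2⟩
      exact ⟨r / D, h2, by rw [← h1]; exact Nat.div_add_mod r D⟩
    · rintro ⟨j, hj, rfl⟩
      have h1 : D * (j + 1) ≤ D * s := Nat.mul_le_mul_left _ hj
      refine ⟨by rw [mul_add] at h1; omega, ?_, ?_⟩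
      · rw [Nat.mul_add_mod, Nat.mod_eq_of_lt he]
      · rw [Nat.mul_add_div (by omega), Nat.div_eq_of_lt he]; omega
  rw [this, card_image_of_injective, card_range]
  intro a b h
  exact Nat.eq_of_mul_eq_mul_left (by omega : 0 < D) (by simpa using h)

/-- the digit plus one, cyclically -/
def nx (n c : ℕ) : ℕ := if c + 1 < qq n then c + 1 else 0

theorem sum_sg {n c ψ ρ : ℕ} (hn : 20 ≤ n) (hc : c < qq n) (hψ : ψ < qq (2 * n)) (hρ : ln n ≤ ρ) :
    (c : ℤ) * (ww n * ψ : ℕ) + ∑ r ∈ range ρ, sg n r c (ww n * ψ) = (nx n c * (ww n * ψ) : ℕ) := by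
  have hq := qq_pos n
  have h1 : 2 ^ (n + 1) * (qq n * (ww n * qq (2 * n))) = ln n := by
    unfold qq ww ln; rw [← pow_add, ← pow_add, ← pow_add]; congr 1; ring
  have h2 : ww n * ψ ≤ ww n * qq (2 * n) := Nat.mul_le_mul_left _ hψ.le
  have h3 : 2 ^ n + 1 < 2 ^ (n + 1) := by
    have : 2 ≤ 2 ^ n := Nat.le_self_pow (by omega) 2
    have : 2 ^ 1 < 2 ^ n := Nat.pow_lt_pow_right (by norm_num) (by omega)
    rw [pow_succ]; omega
  unfold sg nx
  split_ifs with h
  · rw [sum_count _ _ _ _ (by omega)]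
    · push_cast; ring
    · refine le_trans ?_ (h1.le.trans hρ)
      exact Nat.mul_le_mul_left _ (h2.trans (Nat.le_mul_of_pos_left _ hq))
  · rw [sum_neg_distrib, sum_count _ _ _ _ h3]
    · have : qq n - 1 = c := by omega
      rw [this]; push_cast; ring
    · refine le_trans ?_ (h1.le.trans hρ)
      exact Nat.mul_le_mul_left _ (Nat.mul_le_mul (by omega) h2)

/-- the modification of level `n` -/
def sig (n t : ℕ) : ℤ := sg n (t % hh n) (dg n t) (ww n * dg (2 * n) t)

/-- its potential, as a function of the three data it depends on -/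
def pf (n r c ψ : ℕ) : ℤ := (c : ℤ) * (ww n * ψ : ℕ) + ∑ r' ∈ range r, sg n r' c (ww n * ψ)

/-- its potential -/
def pot (n t : ℕ) : ℤ := pf n (t % hh n) (dg n t) (dg (2 * n) t)

theorem div_hh_eq {a b t t' : ℕ} (hab : a ≤ b) (h : t / hh a = t' / hh a) : t / hh b = t' / hh b := by
  obtain ⟨c, hc⟩ := hh_dvd hab
  rw [hc, ← Nat.div_div_eq_div_mul, ← Nat.div_div_eq_div_mul, h]

theorem pot_succ {n : ℕ} (hn : 20 ≤ n) (t : ℕ) : pot n (t + 1) = pot n t + sig n t := by
  have hp := hh_pos n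
  have hq := qq_pos n
  have hlt := Nat.mod_lt t hp
  have hdm := Nat.div_add_mod t (hh n)
  by_cases h : t % hh n + 1 < hh n
  · have e : t + 1 = hh n * (t / hh n) + (t % hh n + 1) := by omega
    have h1 : (t + 1) % hh n = t % hh n + 1 := by rw [e, Nat.mul_add_mod, Nat.mod_eq_of_lt h]
    have h2 : (t + 1) / hh n = t / hh n := by
      rw [e, Nat.mul_add_div hp, Nat.div_eq_of_lt h, add_zero]
    have h3 : dg n (t + 1) = dg n t := by unfold dg; rw [h2]
    have h4 : dg (2 * n) (t + 1) = dg (2 * n) t := by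
      unfold dg; rw [div_hh_eq (by omega : n ≤ 2 * n) h2]
    unfold pot sig pf
    rw [h1, h3, h4, sum_range_succ]; ring
  · have e : t + 1 = hh n * (t / hh n + 1) := by rw [mul_add]; omega
    have h1 : (t + 1) % hh n = 0 := by rw [e, Nat.mul_mod_right]
    have h2 : (t + 1) / hh n = t / hh n + 1 := by rw [e, Nat.mul_div_cancel_left _ hp]
    have h5 : pot n t + sig n t = (nx n (dg n t) * (ww n * dg (2 * n) t) : ℕ) := by
      rw [← sum_sg (ρ := t % hh n + 1) hn (dg_lt _ _) (dg_lt _ _) (by have := ln_le hn; omega),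
        sum_range_succ]
      unfold pot sig pf; ring
    rw [h5]
    unfold pot pf nx
    rw [h1, sum_range_zero, add_zero]
    have hdm2 := Nat.div_add_mod (t / hh n) (qq n)
    split_ifs with h6
    · have e2 : t / hh n + 1 = qq n * (t / hh n / qq n) + (dg n t + 1) := by unfold dg; omega
      have h3 : dg n (t + 1) = dg n t + 1 := by
        conv_lhs => unfold dg
        rw [h2, e2, Nat.mul_add_mod, Nat.mod_eq_of_lt h6]
      have h7 : (t + 1) / hh (n + 1) = t / hh (n + 1) := by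
        rw [hh_succ, ← Nat.div_div_eq_div_mul, ← Nat.div_div_eq_div_mul, h2, e2,
          Nat.mul_add_div hq, Nat.div_eq_of_lt h6, add_zero]
      have h4 : dg (2 * n) (t + 1) = dg (2 * n) t := by
        unfold dg; rw [div_hh_eq (by omega : n + 1 ≤ 2 * n) h7]
      rw [h3, h4]; push_cast; ring
    · have e2 : t / hh n + 1 = qq n * (t / hh n / qq n + 1) := by
        have := dg_lt n t
        unfold dg at h6 this; rw [mul_add]; omega
      have h3 : dg n (t + 1) = 0 := by
        unfold dg; rw [h2, e2, Nat.mul_mod_right]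
      rw [h3]; simp

theorem sum_sig {n : ℕ} (hn : 20 ≤ n) (a τ : ℕ) :
    ∑ l ∈ range τ, sig n (a + l) = pot n (a + τ) - pot n a := by
  induction τ with
  | zero => simp
  | succ τ ih => rw [sum_range_succ, ih, ← add_assoc, pot_succ hn]; ring

section shift
variable {n a i : ℕ}

theorem sh_div : (a + i * hh n) / hh n = a / hh n + i := Nat.add_mul_div_right _ _ (hh_pos n)

theorem sh_dg (h : dg n a + i < qq n) : dg n (a + i * hh n) = dg n a + i := by
  have := Nat.div_add_mod (a / hh n) (qq n)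
  have e : a / hh n + i = qq n * (a / hh n / qq n) + (dg n a + i) := by unfold dg; omega
  conv_lhs => unfold dg
  rw [sh_div, e, Nat.mul_add_mod, Nat.mod_eq_of_lt h]

theorem sh_hi (h : dg n a + i < qq n) {m : ℕ} (hm : n < m) : (a + i * hh n) / hh m = a / hh m := by
  refine div_hh_eq (a := n + 1) hm ?_
  have := Nat.div_add_mod (a / hh n) (qq n)
  have e : a / hh n + i = qq n * (a / hh n / qq n) + (dg n a + i) := by unfold dg; omega
  rw [hh_succ, ← Nat.div_div_eq_div_mul, ← Nat.div_div_eq_div_mul, sh_div, e,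
    Nat.mul_add_div (qq_pos n), Nat.div_eq_of_lt h, add_zero]

theorem sh_mod {m : ℕ} (hm : m ≤ n) : (a + i * hh n) % hh m = a % hh m := by
  obtain ⟨c, hc⟩ := hh_dvd hm
  rw [hc, ← mul_assoc, mul_comm i, mul_assoc, Nat.add_mul_mod_self_left]

theorem sh_ne (h : dg n a + i < qq n) {m : ℕ} (hm : m ≠ n) : dg m (a + i * hh n) = dg m a := by
  rcases lt_or_gt_of_ne hm with h1 | h1
  · obtain ⟨c, hc⟩ := hh_dvd (show m + 1 ≤ n from h1)
    unfold dg
    rw [hc, hh_succ, show i * (hh m * qq m * c) = (i * c * qq m) * hh m by ring,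
      Nat.add_mul_div_right _ _ (hh_pos m), Nat.add_mul_mod_self_right]
  · unfold dg; rw [sh_hi h h1]

theorem sh_mod_ge (h : dg n a + i < qq n) {m : ℕ} (hm : n < m) :
    a % hh m ≤ (a + i * hh n) % hh m := by
  have h1 := Nat.div_add_mod a (hh m)
  have h2 := Nat.div_add_mod (a + i * hh n) (hh m)
  rw [sh_hi h hm] at h2
  omega

end shift

/-- the slope of the count under shifts by multiples of `hh (2 * n)` -/
def kap (n c ψ : ℕ) : ℕ := ww n * (nx n c + ww n * ψ)

theorem pot_ge {n t : ℕ} (hn : 20 ≤ n) (h : ln n ≤ t % hh n) :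
    pot n t = (nx n (dg n t) * (ww n * dg (2 * n) t) : ℕ) := sum_sg hn (dg_lt _ _) (dg_lt _ _) h

theorem sum_levels {n V a i : ℕ} (hn : 20 ≤ n) (hV : 2 * n < V)
    (h1 : dg (2 * n) a + i + 1 < qq (2 * n)) (h2 : ∀ m, n ≤ m → m < V → ln m ≤ a % hh m) :
    ∑ m ∈ Ico 20 V, (pot m (a + i * hh (2 * n)) - pot m a)
      = (i * kap n (dg n a) (dg (2 * (2 * n)) a) : ℕ) := by
  have h1' : dg (2 * n) a + i < qq (2 * n) := by omega
  rw [← sum_subset (s₁ := {n, 2 * n})]
  · rw [sum_pair (by omega)]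
    have a1 := h2 n le_rfl (by omega)
    have a2 := h2 (2 * n) (by omega) hV
    rw [pot_ge hn a1, pot_ge hn (by rwa [sh_mod (by omega)]), pot_ge (by omega) a2,
      pot_ge (n := 2 * n) (by omega) (by rwa [sh_mod le_rfl]), sh_dg h1', sh_ne h1' (by omega),
      sh_ne h1' (by omega)]
    have e1 : nx (2 * n) (dg (2 * n) a + i) = dg (2 * n) a + i + 1 := if_pos h1
    have e2 : nx (2 * n) (dg (2 * n) a) = dg (2 * n) a + 1 := if_pos (by omega)
    have e3 : ww (2 * n) = ww n * ww n := by unfold ww; rw [← pow_add]; congr 1; ring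
    rw [e1, e2, e3]
    unfold kap
    push_cast; ring
  · intro m hm
    simp only [mem_insert, mem_singleton] at hm
    rw [mem_Ico]; omega
  · intro m hm hm'
    simp only [mem_insert, mem_singleton, not_or] at hm'
    rw [mem_Ico] at hm
    rw [sub_eq_zero]
    have e1 : dg m (a + i * hh (2 * n)) = dg m a := sh_ne h1' hm'.2
    have e2 : dg (2 * m) (a + i * hh (2 * n)) = dg (2 * m) a := sh_ne h1' (by omega)
    by_cases hlt : m ≤ 2 * n
    · unfold pot; rw [e1, e2, sh_mod hlt]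
    · have a1 := h2 m (by omega) hm.2
      rw [pot_ge hm.1 a1, pot_ge hm.1 (a1.trans (sh_mod_ge h1' (by omega))), e1, e2]

theorem nx_lt {n c : ℕ} : nx n c < qq n := by
  have := qq_pos n
  unfold nx; split_ifs <;> omega

theorem kap_ne {n c c' ψ ψ' : ℕ} (hn : 20 ≤ n) (hc : c < qq n) (hc' : c' < qq n) (h : c ≠ c') :
    kap n c ψ ≠ kap n c' ψ' := by
  intro e
  have e1 := Nat.eq_of_mul_eq_mul_left (ww_pos n) e
  have hq : qq n ≤ ww n := Nat.pow_le_pow_right (by norm_num) (by omega)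
  have e2 := congrArg (· % ww n) e1
  simp only [Nat.add_mul_mod_self_left] at e2
  rw [Nat.mod_eq_of_lt (nx_lt.trans_le hq), Nat.mod_eq_of_lt (nx_lt.trans_le hq)] at e2
  unfold nx at e2
  split_ifs at e2 <;> omega

theorem kap_le {n c ψ : ℕ} (hn : 20 ≤ n) (hψ : ψ < qq (2 * (2 * n))) :
    8 * (2 ^ n * kap n c ψ) < hh n := by
  have hq : qq n ≤ ww n := Nat.pow_le_pow_right (by norm_num) (by omega)
  have h1 : nx n c + ww n * ψ ≤ ww n * qq (2 * (2 * n)) := by
    have := nx_lt (n := n) (c := c)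
    have h2 : ww n * (ψ + 1) ≤ ww n * qq (2 * (2 * n)) := Nat.mul_le_mul_left _ hψ
    rw [mul_add] at h2
    omega
  calc 8 * (2 ^ n * kap n c ψ) ≤ 2 ^ 3 * (2 ^ n * (ww n * (ww n * qq (2 * (2 * n))))) :=
        Nat.mul_le_mul_left _ (Nat.mul_le_mul_left _ (Nat.mul_le_mul_left _ h1))
    _ = 2 ^ (15 * n + 4) := by
        unfold ww qq; rw [← pow_add, ← pow_add, ← pow_add, ← pow_add]; congr 1; ring
    _ < hh n := Nat.pow_lt_pow_right (by norm_num) (by nlinarith)

theorem sum_parity (a c : ℕ) : ∑ l ∈ range (2 * c), (a + l) % 2 = c := by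
  induction c with
  | zero => simp
  | succ c ih => rw [mul_add, mul_one, sum_range_succ, sum_range_succ, ih]; omega

theorem sg_cases (n r c p : ℕ) : sg n r c p = 0 ∨ (sg n r c p = 1 ∧ r % 2 ^ (n + 1) = 2 ^ n) ∨
    (sg n r c p = -1 ∧ r % 2 ^ (n + 1) = 2 ^ n + 1) := by
  unfold sg
  split_ifs with h1 h2 h3
  · exact Or.inr (Or.inl ⟨rfl, h2.1⟩)
  · exact Or.inl rfl
  · exact Or.inr (Or.inr ⟨rfl, h3.1⟩)
  · exact Or.inl (by simp)

theorem exists_level {k m : ℕ} (hm : 0 < m) (hk : hh k ∣ m) :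
    ∃ n, k ≤ n ∧ hh n ∣ m ∧ ¬ hh (n + 1) ∣ m := by
  by_contra hcon
  push Not at hcon
  have h : ∀ j, hh (k + j) ∣ m := by
    intro j
    induction j with
    | zero => exact hk
    | succ j ih => exact hcon (k + j) (by omega) ih
  have h1 := Nat.le_of_dvd hm (h m)
  have h2 : (k + m) * (k + m) < hh (k + m) := Nat.lt_two_pow_self
  nlinarith

end Pool.Agent.MP_1dc7bd_an.H35
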