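import Pool.Agent.MP_1dc7bd_an.Toeplitz
import Pool.Agent.MP_1dc7bd_an.H35.Dig

/-!
The coding of the dyadic odometer and its visit counts.
-/

set_option autoImplicit false

open Filter Topology MeasureTheory Finset
open scoped ENNReal

namespace Pool.Agent.MP_1dc7bd_an.H35

/-- the residue modulo `2 ^ J` -/
noncomputable def ap (J : ℕ) (z : G) : ℕ := (PadicInt.toZModPow J z).val

theorem ap_lt (J : ℕ) (z : G) : ap J z < 2 ^ J := ZMod.val_lt _

theorem ap_add (J : ℕ) (z : G) (l : ℕ) : ap J (z + l) = (ap J z + l) % 2 ^ J := by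
  unfold ap
  rw [map_add, map_natCast, ZMod.val_add, ZMod.val_natCast, Nat.add_mod_mod]

theorem ap_mod {J J' : ℕ} (h : J ≤ J') (z : G) : ap J z = ap J' z % 2 ^ J := by
  unfold ap
  rw [← PadicInt.cast_toZModPow J J' h z, ZMod.cast_eq_val, ZMod.val_natCast]

theorem ap_add_mod {J J' : ℕ} (h : J ≤ J') (z : G) (l : ℕ) : ap J (z + l) = (ap J' z + l) % 2 ^ J := by
  rw [ap_add, ap_mod h, Nat.mod_add_mod]

theorem ap_eventually (J : ℕ) (z : G) : ∀ᶠ w in 𝓝 z, ap J w = ap J z := by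
  have h : Metric.closedBall z ((2 : ℝ) ^ (-(J : ℤ))) ∈ 𝓝 z :=
    Metric.closedBall_mem_nhds _ (by positivity)
  filter_upwards [h] with w hw
  rw [Metric.mem_closedBall, dist_eq_norm] at hw
  have h1 := (PadicInt.norm_le_pow_iff_mem_span_pow (w - z) J).1 (by simpa using hw)
  rw [← PadicInt.ker_toZModPow, RingHom.mem_ker, map_sub, sub_eq_zero] at h1
  unfold ap; rw [h1]

theorem continuous_ap (J : ℕ) : Continuous (ap J) :=
  (IsLocallyConstant.iff_eventually_eq _).2 (ap_eventually J) |>.continuous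

theorem measurable_ap (J : ℕ) : Measurable (ap J) := (continuous_ap J).measurable

theorem exists_two_le {z : G} (h0 : z ≠ 0) (h1 : z ≠ 1) : ∃ V, ∀ V', V ≤ V' → 2 ≤ ap V' z := by
  have key : ∃ V, 2 ≤ ap V z := by
    by_contra hcon
    push Not at hcon
    have e : ∀ V, 1 ≤ V → ap V z = ap 1 z := by
      intro V hV
      have := hcon V
      rw [ap_mod hV]; omega
    have e2 : z = (ap 1 z : ℕ) := by
      rw [← PadicInt.ext_of_toZModPow]
      intro V
      rw [map_natCast, ← e (V + 1) (by omega), ← PadicInt.cast_toZModPow V (V + 1) (by omega) z,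
        ZMod.cast_eq_val]
      rfl
    have := hcon 1
    rcases (by omega : ap 1 z = 0 ∨ ap 1 z = 1) with h | h
    · exact h0 (by rw [e2, h]; simp)
    · exact h1 (by rw [e2, h]; simp)
  obtain ⟨V, hV⟩ := key
  refine ⟨V, fun V' h => ?_⟩
  rw [ap_mod h] at hV
  exact hV.trans (Nat.mod_le _ _)

theorem H_ap_eq (J c : ℕ) (hc : c < 2 ^ J) : H {z | ap J z = c} = H {z | ap J z = 0} := by
  rw [← measure_preimage_add_right H (c : G) {z | ap J z = c}]
  congr 1
  ext z
  simp only [Set.mem_preimage, Set.mem_ofPred_eq, ap_add]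
  have := ap_lt J z
  constructor
  · intro h
    by_cases h2 : ap J z + c < 2 ^ J
    · rw [Nat.mod_eq_of_lt h2] at h; omega
    · rw [Nat.mod_eq_sub_mod (by omega), Nat.mod_eq_of_lt (by omega)] at h; omega
  · intro h; rw [h, zero_add, Nat.mod_eq_of_lt hc]

theorem H_ap_lt (J l : ℕ) (hl : l ≤ 2 ^ J) : H {z | ap J z < l} = l * H {z | ap J z = 0} := by
  have e : {z | ap J z < l} = ⋃ c ∈ range l, {z | ap J z = c} := by
    ext z; simp
  rw [e, measure_biUnion_finset]
  · rw [sum_congr rfl fun c hc => H_ap_eq J c ((mem_range.1 hc).trans_le hl), sum_const, card_range,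
      nsmul_eq_mul]
  · intro a _ b _ hab
    exact Set.disjoint_left.2 fun z h1 h2 => hab (h1.symm.trans h2)
  · exact fun c _ => measurable_ap J (measurableSet_singleton c)

theorem H_ap_pow {J b n : ℕ} (h : b + n ≤ J) : H {z | ap J z < 2 ^ b} ≤ 2⁻¹ ^ n := by
  have h1 := H_ap_lt J (2 ^ J) le_rfl
  have e : {z | ap J z < 2 ^ J} = Set.univ := Set.eq_univ_of_forall (ap_lt J)
  rw [e, measure_univ] at h1
  rw [H_ap_lt J _ (Nat.pow_le_pow_right (by norm_num) (by omega))]
  have h2 : (2 : ℝ≥0∞) ^ n * (((2 ^ b : ℕ) : ℝ≥0∞) * H {z | ap J z = 0}) ≤ 1 := by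
    rw [h1, ← mul_assoc]
    gcongr
    exact_mod_cast (by rw [← pow_add]; exact Nat.pow_le_pow_right (by norm_num) (by omega) :
      2 ^ n * 2 ^ b ≤ 2 ^ J)
  rw [← ENNReal.inv_pow]
  exact ENNReal.le_inv_iff_mul_le.2 (by rwa [mul_comm])

/-- the position in the block of level `n` -/
noncomputable def rr (n : ℕ) (z : G) : ℕ := ap (n * n) z
/-- the `n`-th digit -/
noncomputable def dz (n : ℕ) (z : G) : ℕ := ap ((n + 1) * (n + 1)) z / hh n
/-- the modification of level `n` -/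
noncomputable def sz (n : ℕ) (z : G) : ℤ := sg n (rr n z) (dz n z) (ww n * dz (2 * n) z)

theorem dz_lt (n : ℕ) (z : G) : dz n z < qq n := by
  unfold dz
  rw [Nat.div_lt_iff_lt_mul (hh_pos n), mul_comm (qq n), ← hh_succ]
  exact ap_lt _ _

theorem rr_add {n J : ℕ} (h : n ≤ J) (z : G) (l : ℕ) : rr n (z + l) = (ap (J * J) z + l) % hh n :=
  ap_add_mod (Nat.mul_le_mul h h) z l

theorem dz_add {n J : ℕ} (h : n + 1 ≤ J) (z : G) (l : ℕ) : dz n (z + l) = dg n (ap (J * J) z + l) := by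
  unfold dz dg
  rw [ap_add_mod (Nat.mul_le_mul h h), ← Nat.mod_mul_right_div_self, ← hh_succ]
  rfl

theorem sz_add {n J : ℕ} (h : 2 * n + 1 ≤ J) (z : G) (l : ℕ) :
    sz n (z + l) = sig n (ap (J * J) z + l) := by
  unfold sz sig
  rw [rr_add (J := J) (by omega), dz_add (J := J) (by omega), dz_add h]

theorem sz_eq {n J : ℕ} (h : 2 * n + 1 ≤ J) (z : G) : sz n z = sig n (ap (J * J) z) := by
  simpa using sz_add h z 0

theorem sz_cases {n : ℕ} (hn : 20 ≤ n) (z : G) : sz n z = 0 ∨ (sz n z = 1 ∧ ap (n + 1) z = 2 ^ n) ∨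
    (sz n z = -1 ∧ ap (n + 1) z = 2 ^ n + 1) := by
  rw [ap_mod (show n + 1 ≤ n * n by nlinarith)]
  exact sg_cases _ _ _ _

theorem ap_of_sz {n V : ℕ} (hn : 20 ≤ n) (hV : V ≤ n) (hV1 : 1 ≤ V) {z : G} :
    (sz n z = 1 → ap V z = 0) ∧ (sz n z = -1 → ap V z = 1) := by
  obtain ⟨c, hc⟩ := pow_dvd_pow 2 hV
  have h2 : 2 ^ 1 ≤ 2 ^ V := Nat.pow_le_pow_right (by norm_num) hV1
  rw [ap_mod (show V ≤ n + 1 by omega)]
  rcases sz_cases hn z with h | h | h
  · omega
  · refine ⟨fun _ => by rw [h.2, hc, Nat.mul_mod_right], by omega⟩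
  · refine ⟨by omega, fun _ => by rw [h.2, hc, Nat.mul_add_mod, Nat.mod_eq_of_lt (by omega)]⟩

theorem sz_zero {n V : ℕ} (hn : 20 ≤ n) (hV : V ≤ n) {z : G} (h : 2 ≤ ap V z) : sz n z = 0 := by
  have hV1 : 1 ≤ V := by
    rcases V with _ | V
    · have := ap_lt 0 z; omega
    · omega
  have := ap_of_sz hn hV hV1 (z := z)
  rcases sz_cases hn z with h | h | h <;> omega

theorem sz_uniq {n n' : ℕ} (hn : 20 ≤ n) (hn' : 20 ≤ n') {z : G} (h : sz n z ≠ 0) (h' : sz n' z ≠ 0) :
    n = n' := by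
  have key : ∀ a b : ℕ, 20 ≤ a → a < b → sz a z ≠ 0 → sz b z = 0 := by
    intro a b ha hab h
    refine sz_zero (by omega) (show a + 1 ≤ b from hab) ?_
    have : 2 ^ 1 ≤ 2 ^ a := Nat.pow_le_pow_right (by norm_num) (by omega)
    rcases sz_cases ha z with h | h | h <;> omega
  rcases lt_trichotomy n n' with h1 | h1 | h1
  · exact absurd (key _ _ hn h1 h) h'
  · exact h1
  · exact absurd (key _ _ hn' h1 h') h

open Classical in
/-- the coding: odd points, with some even points switched on and some odd points switched off -/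
noncomputable def ff (z : G) : Bool :=
  decide ((∃ n, 20 ≤ n ∧ sz n z = 1) ∨ (ap 1 z = 1 ∧ ¬ ∃ n, 20 ≤ n ∧ sz n z = -1))

theorem ff_iff (z : G) : ff z = true ↔
    (∃ n, 20 ≤ n ∧ sz n z = 1) ∨ (ap 1 z = 1 ∧ ¬ ∃ n, 20 ≤ n ∧ sz n z = -1) := by
  unfold ff; simp only [decide_eq_true_eq]

/-- the indicator of the coding -/
noncomputable def iz (z : G) : ℕ := if ff z = true then 1 else 0

theorem iz_eq {V : ℕ} {z : G} (h : 2 ≤ ap V z) : (iz z : ℤ) = ap 1 z + ∑ n ∈ Ico 20 V, sz n z := by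
  have h1 := ap_lt 1 z
  unfold iz
  by_cases hex : ∃ n, 20 ≤ n ∧ sz n z ≠ 0
  · obtain ⟨n, hn, hne⟩ := hex
    have hV : n < V := by
      by_contra hc
      exact hne (sz_zero hn (by omega) h)
    rw [sum_eq_single n (fun b hb hbn => by
      by_contra hc
      exact hbn (sz_uniq (mem_Ico.1 hb).1 hn hc hne)) (fun hc => absurd (mem_Ico.2 ⟨hn, hV⟩) hc)]
    have a := ap_of_sz hn (show 1 ≤ n by omega) le_rfl (z := z)
    rcases sz_cases hn z with h2 | h2 | h2
    · exact absurd h2 hne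
    · rw [if_pos ((ff_iff z).2 (Or.inl ⟨n, hn, h2.1⟩)), a.1 h2.1, h2.1]; rfl
    · rw [if_neg, a.2 h2.1, h2.1]
      · rfl
      · rw [ff_iff]
        rintro (⟨m, hm, h3⟩ | ⟨-, h3⟩)
        · have := sz_uniq hm hn (by omega) hne
          subst this; omega
        · exact h3 ⟨n, hn, h2.1⟩
  · push Not at hex
    rw [sum_eq_zero fun n hn => hex n (mem_Ico.1 hn).1, add_zero]
    by_cases h2 : ap 1 z = 1
    · rw [if_pos ((ff_iff z).2 (Or.inr ⟨h2, fun ⟨n, hn, h3⟩ => by have := hex n hn; omega⟩)), h2]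
    · rw [if_neg]
      · omega
      · rw [ff_iff]
        rintro (⟨m, hm, h3⟩ | ⟨h3, -⟩)
        · have := hex m hm; omega
        · exact h2 h3

theorem ff_of_three {z : G} (h : ap 2 z = 3) : ff z = true := by
  rw [ff_iff]
  refine Or.inr ⟨by rw [ap_mod (show 1 ≤ 2 by omega), h]; rfl, ?_⟩
  rintro ⟨n, hn, h3⟩
  have := (ap_of_sz hn (show 2 ≤ n by omega) (by omega)).2 h3
  omega

theorem ff_eventually {z : G} (h0 : z ≠ 0) (h1 : z ≠ 1) : ∀ᶠ w in 𝓝 z, ff w = ff z := by
  obtain ⟨V, hV⟩ := exists_two_le h0 h1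
  filter_upwards [ap_eventually ((2 * V + 1) * (2 * V + 1)) z] with w hw
  have hle : V ≤ (2 * V + 1) * (2 * V + 1) := by nlinarith
  have hle1 : 1 ≤ (2 * V + 1) * (2 * V + 1) := by nlinarith
  have a1 := hV V le_rfl
  have a2 : 2 ≤ ap V w := by rw [ap_mod hle, hw, ← ap_mod hle]; exact a1
  have e : (iz w : ℤ) = iz z := by
    rw [iz_eq a1, iz_eq a2, ap_mod hle1, hw, ← ap_mod hle1]
    congr 1
    refine sum_congr rfl fun n hn => ?_
    have := (mem_Ico.1 hn).2
    rw [sz_eq (J := 2 * V + 1) (by omega), sz_eq (J := 2 * V + 1) (by omega), hw]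
  unfold iz at e
  cases h2 : ff w <;> cases h3 : ff z <;> simp_all

theorem measurable_sz (n : ℕ) : Measurable (sz n) := by
  have : sz n = (sig n) ∘ ap ((2 * n + 1) * (2 * n + 1)) := funext fun z => sz_eq le_rfl z
  rw [this]
  exact (measurable_of_countable _).comp (measurable_ap _)

theorem measurableSet_ff : MeasurableSet {z | ff z = true} := by
  simp only [ff_iff]
  have h : ∀ c : ℤ, MeasurableSet {z | ∃ n, 20 ≤ n ∧ sz n z = c} := by
    intro c
    rw [Set.ofPred_exists]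
    exact MeasurableSet.iUnion fun n =>
      (MeasurableSet.const _).inter (measurable_sz n (measurableSet_singleton c))
  exact (h 1).union ((measurable_ap 1 (measurableSet_singleton 1)).inter (h (-1)).compl)

theorem measurable_ff : Measurable ff := measurable_to_bool measurableSet_ff

/-- the Toeplitz datum -/
noncomputable def tp : Toep where
  f := ff
  meas := measurable_ff
  ae := by
    have h : ∀ᵐ z ∂H, z ∉ ({0, 1} : Set G) :=
      measure_eq_zero_iff_ae_notMem.1 ((Set.toFinite _).measure_zero _)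
    filter_upwards [h] with z hz
    simp only [Set.mem_insert_iff, Set.mem_singleton_iff, not_or] at hz
    exact ⟨ff z, ff_eventually hz.1 hz.2⟩
  pos := by
    intro h
    have h1 : H {z | ap 2 z = 3} = 0 := measure_mono_null (fun z hz => ff_of_three hz) h
    have h2 := H_ap_lt 2 (2 ^ 2) le_rfl
    rw [← H_ap_eq 2 3 (by norm_num), h1, Set.eq_univ_of_forall (s := {z | ap 2 z < 2 ^ 2}) (ap_lt 2),
      measure_univ] at h2
    simp at h2

/-- the number of visits among the first `m` points -/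
noncomputable def gg (m : ℕ) (z : G) : ℕ := ∑ l ∈ range m, iz (z + l)

theorem gg_add (a b : ℕ) (z : G) : gg (a + b) z = gg a z + gg b (z + a) := by
  unfold gg
  rw [sum_range_add]
  simp only [Nat.cast_add, add_assoc]

theorem gg_count (m : ℕ) (z : G) : gg m z = Nat.count (fun i : ℕ => ff (z + i) = true) m := by
  induction m with
  | zero => simp [gg]
  | succ m ih => rw [Nat.count_succ, ← ih]; unfold gg iz; rw [sum_range_succ]

theorem measurable_gg (m : ℕ) : Measurable (gg m) := by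
  refine Finset.measurable_sum _ fun l _ => ?_
  exact (Measurable.ite measurableSet_ff measurable_const measurable_const).comp
    (measurable_add_const _)

theorem gg_four (z : G) : 1 ≤ gg 4 z := by
  have h := ap_lt 2 z
  have h1 : 3 - ap 2 z ∈ range 4 := mem_range.2 (by omega)
  refine le_trans ?_ (single_le_sum (f := fun l : ℕ => iz (z + l)) (fun _ _ => Nat.zero_le _) h1)
  have : ff (z + ((3 - ap 2 z : ℕ) : G)) = true := ff_of_three (by rw [ap_add]; omega)
  simp only [iz, this, if_true, le_refl]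

theorem gg_ge (c : ℕ) {m : ℕ} (h : 4 * c ≤ m) (z : G) : c ≤ gg m z := by
  induction c generalizing m z with
  | zero => exact Nat.zero_le _
  | succ c ih =>
    obtain ⟨m', rfl⟩ : ∃ m', m = 4 + m' := ⟨m - 4, by omega⟩
    have := ih (m := m') (by omega) (z + (4 : ℕ))
    have := gg_four z
    rw [gg_add]; omega

theorem gg_pos {m : ℕ} (h : 0 < m) {z : G} (hz : ff z = true) : 1 ≤ gg m z := by
  obtain ⟨m', rfl⟩ : ∃ m', m = 1 + m' := ⟨m - 1, by omega⟩
  rw [gg_add]
  have : gg 1 z = 1 := by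
    unfold gg iz
    rw [sum_range_one, Nat.cast_zero, add_zero, if_pos hz]
  omega

/-- points whose forward orbit misses the two discontinuities -/
def N0 : Set G := {z | ∀ l : ℕ, z + l ≠ 0 ∧ z + l ≠ 1}

theorem N0_add {z : G} (h : z ∈ N0) (m : ℕ) : z + m ∈ N0 := fun l => by
  have := h (m + l)
  rwa [Nat.cast_add, ← add_assoc] at this

theorem N0_ae : ∀ᵐ z ∂H, z ∈ N0 := by
  refine ae_all_iff.2 fun l => ?_
  have h : ∀ᵐ z ∂H, z ∉ ({-(l : G), 1 - (l : G)} : Set G) :=
    measure_eq_zero_iff_ae_notMem.1 ((Set.toFinite _).measure_zero _)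
  filter_upwards [h] with z hz
  simp only [Set.mem_insert_iff, Set.mem_singleton_iff, not_or] at hz
  exact ⟨fun h => hz.1 (by linear_combination h), fun h => hz.2 (by linear_combination h)⟩

/-- no carry out of the digit `2 n`, and no active zone of level at least `n` -/
def Good (n : ℕ) (z : G) : Prop := dz (2 * n) z + 2 ^ n < qq (2 * n) ∧ ∀ m, n ≤ m → ln m ≤ rr m z

/-- the slope at `z` -/
noncomputable def kz (n : ℕ) (z : G) : ℕ := kap n (dz n z) (dz (2 * (2 * n)) z)

theorem gg_shift {n i : ℕ} (hn : 20 ≤ n) {z : G} (h0 : z ∈ N0) (hg : Good n z) (hi : i < 2 ^ n) :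
    2 * gg (i * hh (2 * n)) z = i * hh (2 * n) + 2 * (i * kz n z) := by
  obtain ⟨V, hV1, hV⟩ : ∃ V, 2 * n < V ∧ ∀ l < i * hh (2 * n), 2 ≤ ap V (z + l) := by
    choose W hW using fun l => exists_two_le (h0 l).1 (h0 l).2
    refine ⟨(range (i * hh (2 * n))).sup W + 2 * n + 1, by omega, fun l hl => hW l _ ?_⟩
    have := le_sup (f := W) (mem_range.2 hl)
    omega
  obtain ⟨a, ha⟩ : ∃ a, a = ap ((2 * V + 1) * (2 * V + 1)) z := ⟨_, rfl⟩
  have hd : ∀ m, m ≤ 2 * V → dz m z = dg m a := fun m hm => by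
    simpa [ha] using dz_add (J := 2 * V + 1) (show m + 1 ≤ _ by omega) z 0
  have hr : ∀ m, m ≤ 2 * V → rr m z = a % hh m := fun m hm => by
    simpa [ha] using rr_add (J := 2 * V + 1) (show m ≤ _ by omega) z 0
  obtain ⟨c, hc⟩ : 2 ∣ i * hh (2 * n) :=
    Dvd.dvd.mul_left ((dvd_pow_self 2 (by omega)).trans (pow_dvd_hh (n := 2 * n) (by omega))) _
  have e : (gg (i * hh (2 * n)) z : ℤ) = c + (i * kz n z : ℕ) := by
    unfold gg kz
    rw [hd n (by omega), hd _ (by omega), ← sum_levels hn hV1 (a := a) (i := i)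
      (by rw [← hd _ (by omega)]; have := hg.1; omega)
      (fun m h1 h2 => by rw [← hr m (by omega)]; exact hg.2 m h1), Nat.cast_sum,
      sum_congr rfl fun l hl => iz_eq (hV l (mem_range.1 hl)), sum_add_distrib, sum_comm]
    congr 1
    · rw [← sum_parity a c, ← hc, Nat.cast_sum]
      refine sum_congr rfl fun l _ => ?_
      rw [ap_add_mod (J' := (2 * V + 1) * (2 * V + 1)) (by nlinarith), ← ha, pow_one]
    · refine sum_congr rfl fun m hm => ?_
      rw [mem_Ico] at hm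
      rw [← sum_sig hm.1]
      refine sum_congr rfl fun l _ => ?_
      rw [sz_add (J := 2 * V + 1) (by omega), ← ha]
  have e2 : gg (i * hh (2 * n)) z = c + i * kz n z := by exact_mod_cast e
  omega

theorem kz_ne {n m : ℕ} (hn : 20 ≤ n) (h1 : hh n ∣ m) (h2 : ¬ hh (n + 1) ∣ m) (z : G) :
    kz n (z + m) ≠ kz n z := by
  refine kap_ne hn (dz_lt _ _) (dz_lt _ _) fun h => h2 ?_
  have ha : ap ((n + 1) * (n + 1)) z < hh (n + 1) := ap_lt _ _
  unfold dz at h
  rw [ap_add] at h
  change (_ + m) % hh (n + 1) / hh n = _ at h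
  generalize ap ((n + 1) * (n + 1)) z = a at h ha
  obtain ⟨c, rfl⟩ := h1
  have h3 : (a + hh n * c) % hh (n + 1) % hh n = a % hh n := by
    rw [Nat.mod_mod_of_dvd _ (hh_dvd (by omega)), Nat.add_mul_mod_self_left]
  have h4 : (a + hh n * c) % hh (n + 1) = a := by
    rw [← Nat.div_add_mod ((a + hh n * c) % hh (n + 1)) (hh n), h, h3, Nat.div_add_mod]
  have h5 := Nat.div_add_mod (a + hh n * c) (hh (n + 1))
  exact ⟨(a + hh n * c) / hh (n + 1), by omega⟩

theorem kz_le {n : ℕ} (hn : 20 ≤ n) (z : G) : 8 * (2 ^ n * kz n z) < hh n := kap_le hn (dz_lt _ _)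

end Pool.Agent.MP_1dc7bd_an.H35
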