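import Mathlib

set_option autoImplicit false

open Filter Topology MeasureTheory
open scoped symmDiff ENNReal

namespace Pool.Agent.MP_1dc7bd_an.H35

variable {X : Type} [MeasurableSpace X]

/-- `μ (T^(n k) B ∆ B) → 0` for every measurable `B`, along a strictly increasing sequence of positive
integers. -/
def IsRigid (T : X → X) (μ : Measure X) : Prop :=
  ∃ n : ℕ → ℕ, StrictMono n ∧ (∀ k, 0 < n k) ∧
    ∀ B : Set X, MeasurableSet B → Tendsto (fun k => μ ((T^[n k] '' B) ∆ B)) atTop (𝓝 0)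

/-- `liminf μ (B ∩ T^(-n k) B) ≥ δ μ B` for every measurable `B`, for some `δ` in `(0, 1]` and some strictly
increasing sequence of positive integers. -/
def IsPartiallyRigid (T : X → X) (μ : Measure X) : Prop :=
  ∃ δ : ℝ≥0∞, 0 < δ ∧ δ ≤ 1 ∧ ∃ n : ℕ → ℕ, StrictMono n ∧ (∀ k, 0 < n k) ∧
    ∀ B : Set X, MeasurableSet B → δ * μ B ≤ liminf (fun k => μ (B ∩ T^[n k] ⁻¹' B)) atTop

/-- the normalised measure `B ↦ μ B / μ A` on the subspace `A` -/
noncomputable def normalised (μ : Measure X) (A : Set X) : Measure A :=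
  (μ A)⁻¹ • Measure.comap Subtype.val μ

end Pool.Agent.MP_1dc7bd_an.H35
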