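import Pool.Agent.MP_1dc7bd_an.H35.Code

/-!
The return times are rarely multiples of a long block length, uniformly in the number of returns.
-/

set_option autoImplicit false

open Filter Topology MeasureTheory Set
open scoped ENNReal

namespace Pool.Agent.MP_1dc7bd_an.H35

theorem tsum_le_of_disj {ι : Type} [Countable ι] (s : ι → Set G) (hm : ∀ i, MeasurableSet (s i))
    (hd : ∀ i j z, z ∈ s i → z ∈ s j → i = j) (t : Set G) (ht : ∀ i, s i ⊆ t) :
    ∑' i, H (s i) ≤ H t := by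
  rw [← measure_iUnion _ hm]
  · exact measure_mono (iUnion_subset ht)
  · exact fun i j hij => disjoint_left.2 fun z h1 h2 => hij (hd i j z h1 h2)

theorem measurable_dz (n : ℕ) : Measurable (dz n) :=
  (measurable_of_countable (· / hh n)).comp (measurable_ap _)

theorem measurableSet_Good (n : ℕ) : MeasurableSet {z | Good n z} := by
  unfold Good
  refine MeasurableSet.inter (measurable_dz (2 * n) (t := {c | c + 2 ^ n < qq (2 * n)}) trivial) ?_
  change MeasurableSet {z | ∀ m, n ≤ m → ln m ≤ rr m z}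
  rw [ofPred_forall]
  exact MeasurableSet.iInter fun m =>
    measurable_ap (m * m) (t := {c | n ≤ m → ln m ≤ c}) trivial

theorem measurableSet_N0 : MeasurableSet N0 := by
  unfold N0
  rw [ofPred_forall]
  exact MeasurableSet.iInter fun l =>
    ((measurable_add_const _) (measurableSet_singleton 0).compl).inter
      ((measurable_add_const _) (measurableSet_singleton 1).compl)

/-- the exceptional set of the levels from `k` on -/
def Bad (k : ℕ) : Set G := ⋃ j, {z | Good (j + k) z}ᶜ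

theorem measurableSet_Bad (k : ℕ) : MeasurableSet (Bad k) :=
  MeasurableSet.iUnion fun _ => (measurableSet_Good _).compl

/-- the tail of the geometric series -/
noncomputable def tl (k : ℕ) : ℝ≥0∞ := ∑' j, 2⁻¹ ^ (j + k)

theorem tendsto_tl : Tendsto tl atTop (𝓝 0) :=
  ENNReal.tendsto_sum_nat_add (fun n => (2⁻¹ : ℝ≥0∞) ^ n) (by
    rw [ENNReal.tsum_geometric]; simp)

theorem H_carry (n : ℕ) : H {z | ¬ dz (2 * n) z + 2 ^ n < qq (2 * n)} ≤ 2⁻¹ ^ n := by
  refine le_trans ?_ (H_ap_pow (J := (2 * n + 1) * (2 * n + 1)) (b := n + 2 * n * (2 * n)) (n := n)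
    (by nlinarith))
  rw [← measure_preimage_add_right H ((2 ^ n * hh (2 * n) : ℕ) : G)
    {z | ap ((2 * n + 1) * (2 * n + 1)) z < 2 ^ (n + 2 * n * (2 * n))}]
  refine measure_mono fun z hz => ?_
  simp only [mem_ofPred_eq, mem_preimage, ap_add, dz] at hz ⊢
  have ha : ap ((2 * n + 1) * (2 * n + 1)) z < hh (2 * n + 1) := ap_lt _ _
  change (_ + _) % hh (2 * n + 1) < _
  generalize ap ((2 * n + 1) * (2 * n + 1)) z = a at hz ha
  have e : 2 ^ (n + 2 * n * (2 * n)) = 2 ^ n * hh (2 * n) := by unfold hh; rw [pow_add]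
  have h1 := Nat.div_add_mod a (hh (2 * n))
  have h2 : hh (2 * n) * qq (2 * n) ≤ hh (2 * n) * (a / hh (2 * n) + 2 ^ n) :=
    Nat.mul_le_mul_left _ (not_lt.1 hz)
  rw [mul_add, mul_comm _ (2 ^ n), ← hh_succ] at h2
  rw [e, Nat.mod_eq_sub_mod (by omega)]
  exact (Nat.mod_le _ _).trans_lt (by omega)

theorem H_Bad {k : ℕ} (hk : 20 ≤ k) : H (Bad k) ≤ 2 * tl k := by
  have hs : Bad k ⊆ (⋃ j, {z | ¬ dz (2 * (j + k)) z + 2 ^ (j + k) < qq (2 * (j + k))}) ∪
      ⋃ j, {z | ap ((j + k) * (j + k)) z < 2 ^ (10 * (j + k) + 3)} := by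
    intro z hz
    obtain ⟨j, hj⟩ := mem_iUnion.1 hz
    by_cases h : dz (2 * (j + k)) z + 2 ^ (j + k) < qq (2 * (j + k))
    · right
      have h2 : ¬ ∀ m, j + k ≤ m → ln m ≤ rr m z := fun h2 => hj ⟨h, h2⟩
      push Not at h2
      obtain ⟨m, h3, h4⟩ := h2
      refine mem_iUnion.2 ⟨m - k, ?_⟩
      rw [show m - k + k = m by omega]
      exact h4
    · exact Or.inl (mem_iUnion.2 ⟨j, h⟩)
  refine (measure_mono hs).trans ((measure_union_le _ _).trans ?_)
  rw [two_mul]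
  refine add_le_add ((measure_iUnion_le _).trans (ENNReal.tsum_le_tsum fun j => H_carry _))
    ((measure_iUnion_le _).trans (ENNReal.tsum_le_tsum fun j => H_ap_pow ?_))
  have : 20 ≤ j + k := by omega
  nlinarith

/-- the good points with `N` visits before a time `m` of level `n` -/
def EE (N n m : ℕ) : Set G :=
  {z | (hh n ∣ m ∧ ¬ hh (n + 1) ∣ m) ∧ z ∈ N0 ∧ gg m z = N ∧ Good n z ∧ Good n (z + m)}

theorem measurableSet_EE (N n m : ℕ) : MeasurableSet (EE N n m) :=
  (MeasurableSet.const _).inter (measurableSet_N0.inter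
    ((measurable_gg m (measurableSet_singleton N)).inter ((measurableSet_Good n).inter
      ((measurable_add_const _) (measurableSet_Good n)))))

theorem EE_shift {N n m i : ℕ} (hn : 20 ≤ n) {z : G} (hz : z ∈ EE N n m) (hi : i < 2 ^ n) :
    gg m (z + (i * hh (2 * n) : ℕ)) + i * kz n z = N + i * kz n (z + m) := by
  obtain ⟨-, h0, h1, h2, h3⟩ := hz
  have a1 := gg_shift hn h0 h2 hi
  have a2 := gg_shift hn (N0_add h0 m) h3 hi
  have a3 := gg_add m (i * hh (2 * n)) z
  have a4 := gg_add (i * hh (2 * n)) m z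
  rw [add_comm] at a4
  omega

theorem EE_same {N n m i i' : ℕ} (hn : 20 ≤ n) {w : G} (hi' : i' < 2 ^ n) (hlt : i < i')
    (h : w - (i * hh (2 * n) : ℕ) ∈ EE N n m) (h' : w - (i' * hh (2 * n) : ℕ) ∈ EE N n m) : False := by
  obtain ⟨d, rfl⟩ : ∃ d, i' = i + d := ⟨i' - i, by omega⟩
  have a := EE_shift hn h' (show d < 2 ^ n by omega)
  have e : w - ((i + d) * hh (2 * n) : ℕ) + (d * hh (2 * n) : ℕ) = w - (i * hh (2 * n) : ℕ) := by
    push_cast; ring
  rw [e, h.2.2.1] at a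
  exact kz_ne hn h'.1.1 h'.1.2 _
    (Nat.eq_of_mul_eq_mul_left (show 0 < d by omega) (Nat.add_left_cancel a)).symm

theorem EE_diff {N n m m' i i' : ℕ} (hn : 20 ≤ n) {w : G} (hi : i < 2 ^ n) (hi' : i' < 2 ^ n)
    (hlt : m < m') (h : w - (i * hh (2 * n) : ℕ) ∈ EE N n m)
    (h' : w - (i' * hh (2 * n) : ℕ) ∈ EE N n m') : False := by
  have a := EE_shift hn h hi
  have a' := EE_shift hn h' hi'
  rw [sub_add_cancel] at a a'
  obtain ⟨d, rfl⟩ : ∃ d, m' = m + d := ⟨m' - m, by omega⟩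
  have hd : hh n ≤ d := Nat.le_of_dvd (by omega) ((Nat.dvd_add_right h.1.1).1 h'.1.1)
  obtain ⟨c, hc⟩ : 2 ^ 2 ∣ hh n := (pow_dvd_pow 2 (by omega)).trans (pow_dvd_hh hn)
  have b1 := gg_ge c (m := d) (by omega) (w + m)
  have b2 := gg_add m d w
  have b3 := kz_le hn (w - (i * hh (2 * n) : ℕ))
  have b4 := kz_le hn (w - (i' * hh (2 * n) : ℕ) + (m + d : ℕ))
  have b5 := Nat.mul_le_mul_right (kz n (w - (i * hh (2 * n) : ℕ))) hi.le
  have b6 := Nat.mul_le_mul_right (kz n (w - (i' * hh (2 * n) : ℕ) + (m + d : ℕ))) hi'.le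
  omega

theorem tsum_EE (N : ℕ) {n : ℕ} (hn : 20 ≤ n) : ∑' m, H (EE N n m) ≤ 2⁻¹ ^ n := by
  have h := tsum_le_of_disj
    (fun q : Fin (2 ^ n) × ℕ => (fun w : G => w - (q.1 * hh (2 * n) : ℕ)) ⁻¹' EE N n q.2)
    (fun q => (measurable_sub_const _) (measurableSet_EE _ _ _)) (by
      rintro ⟨i, m⟩ ⟨i', m'⟩ w h h'
      rcases lt_trichotomy m m' with h1 | rfl | h1
      · exact (EE_diff hn i.2 i'.2 h1 h h').elim
      · rcases lt_trichotomy i.1 i'.1 with h2 | h2 | h2
        · exact (EE_same hn i'.2 h2 h h').elim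
        · rw [Fin.ext h2]
        · exact (EE_same hn i.2 h2 h' h).elim
      · exact (EE_diff hn i'.2 i.2 h1 h' h).elim) univ (fun _ => subset_univ _)
  simp only [sub_eq_add_neg, measure_preimage_add_right, measure_univ] at h
  rw [ENNReal.tsum_prod (f := fun (_ : Fin (2 ^ n)) m => H (EE N n m)), tsum_fintype,
    Finset.sum_const, Finset.card_univ, Fintype.card_fin, nsmul_eq_mul] at h
  rw [← ENNReal.inv_pow]
  refine ENNReal.le_inv_iff_mul_le.2 ?_
  rw [mul_comm]
  exact_mod_cast h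

/-- the points of the coded set whose `N`-th return happens at time `m` -/
def ZZ (N m : ℕ) : Set G := {z | ff z = true ∧ gg m z = N ∧ ff (z + m) = true}

theorem measurableSet_ZZ (N m : ℕ) : MeasurableSet (ZZ N m) :=
  measurableSet_ff.inter ((measurable_gg m (measurableSet_singleton N)).inter
    ((measurable_add_const _) measurableSet_ff))

theorem ZZ_uniq {N m m' : ℕ} {z : G} (h : z ∈ ZZ N m) (h' : z ∈ ZZ N m') : m = m' := by
  have key : ∀ a b : ℕ, z ∈ ZZ N a → z ∈ ZZ N b → ¬ a < b := by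
    intro a b ha hb hab
    obtain ⟨d, rfl⟩ : ∃ d, b = a + d := ⟨b - a, by omega⟩
    have h1 := gg_add a d z
    have h2 := gg_pos (m := d) (by omega) ha.2.2
    have h3 := ha.2.1
    have h4 := hb.2.1
    omega
  have := key _ _ h h'
  have := key _ _ h' h
  omega

theorem ZZ_uniq' {N m m' : ℕ} {w : G} (h : w - m ∈ ZZ N m) (h' : w - m' ∈ ZZ N m') : m = m' := by
  have key : ∀ a b : ℕ, w - a ∈ ZZ N a → w - b ∈ ZZ N b → ¬ a < b := by
    intro a b ha hb hab
    obtain ⟨d, rfl⟩ : ∃ d, b = d + a := ⟨b - a, by omega⟩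
    have h1 := gg_add d a (w - (d + a : ℕ))
    have h2 := gg_pos (m := d) (by omega) hb.1
    have e : w - (d + a : ℕ) + d = w - a := by push_cast; ring
    rw [e, ha.2.1, hb.2.1] at h1
    omega
  have := key _ _ h h'
  have := key _ _ h' h
  omega

/-- those with `m` a positive multiple of the block length of level `k` -/
def ZK (N k m : ℕ) : Set G := {z | (0 < m ∧ hh k ∣ m) ∧ z ∈ ZZ N m}

theorem tsum_ZK (N : ℕ) {k : ℕ} (hk : 20 ≤ k) : ∑' m, H (ZK N k m) ≤ 5 * tl k := by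
  have hB := measurableSet_Bad k
  have h1 : ∀ m, H (ZK N k m) ≤ H (ZZ N m ∩ Bad k) + H ((fun w : G => w - m) ⁻¹' ZZ N m ∩ Bad k)
      + ∑' j, H (EE N (j + k) m) := by
    intro m
    have e : H ((fun w : G => w - m) ⁻¹' ZZ N m ∩ Bad k)
        = H (ZZ N m ∩ (fun z : G => z + m) ⁻¹' Bad k) := by
      rw [← measure_preimage_add_right H (m : G)]
      congr 1
      ext z
      simp
    rw [e]
    refine le_trans (measure_mono_ae (t := (ZZ N m ∩ Bad k ∪ ZZ N m ∩ (fun z : G => z + m) ⁻¹' Bad k)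
      ∪ ⋃ j, EE N (j + k) m) ?_) ((measure_union_le _ _).trans
        (add_le_add (measure_union_le _ _) (measure_iUnion_le _)))
    filter_upwards [N0_ae] with z h0 hz
    by_cases b1 : z ∈ Bad k
    · exact Or.inl (Or.inl ⟨hz.2, b1⟩)
    by_cases b2 : z + m ∈ Bad k
    · exact Or.inl (Or.inr ⟨hz.2, b2⟩)
    obtain ⟨n, hn, hn1, hn2⟩ := exists_level hz.1.1 hz.1.2
    obtain ⟨j, rfl⟩ : ∃ j, n = j + k := ⟨n - k, by omega⟩
    refine Or.inr (mem_iUnion.2 ⟨j, ⟨hn1, hn2⟩, h0, hz.2.2.1, ?_, ?_⟩)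
    · by_contra hc
      exact b1 (mem_iUnion.2 ⟨j, hc⟩)
    · by_contra hc
      exact b2 (mem_iUnion.2 ⟨j, hc⟩)
  refine (ENNReal.tsum_le_tsum h1).trans ?_
  rw [ENNReal.tsum_add, ENNReal.tsum_add, ENNReal.tsum_comm]
  have a1 := (tsum_le_of_disj (fun m => ZZ N m ∩ Bad k) (fun m => (measurableSet_ZZ N m).inter hB)
    (fun _ _ _ h h' => ZZ_uniq h.1 h'.1) _ fun _ => inter_subset_right).trans (H_Bad hk)
  have a2 := (tsum_le_of_disj (fun m : ℕ => (fun w : G => w - m) ⁻¹' ZZ N m ∩ Bad k)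
    (fun m => ((measurable_sub_const _) (measurableSet_ZZ N m)).inter hB)
    (fun _ _ _ h h' => ZZ_uniq' h.1 h'.1) _ fun _ => inter_subset_right).trans (H_Bad hk)
  have a3 : ∑' j, ∑' m, H (EE N (j + k) m) ≤ tl k :=
    ENNReal.tsum_le_tsum fun j => tsum_EE N (by omega)
  calc _ ≤ 2 * tl k + 2 * tl k + tl k := add_le_add (add_le_add a1 a2) a3
    _ = 5 * tl k := by ring

end Pool.Agent.MP_1dc7bd_an.H35
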