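import Pool.Agent.MP_1dc7bd_an.H35.Est
import Pool.Agent.MP_1dc7bd_an.H35.Defs

/-!
The induced map is neither rigid nor in the weaker class; the system is strictly ergodic.
-/

set_option autoImplicit false

open Filter Topology MeasureTheory Set
open scoped symmDiff ENNReal

namespace Pool.Agent.MP_1dc7bd_an.H35

section abstract
variable {X : Type} [MeasurableSpace X] {F : X → X} {ν : Measure X}

theorem one_le_cover (h1 : ν univ = 1) (s : Finset ℕ) (B : ℕ → Set X) (hc : ∀ x, ∃ c ∈ s, x ∈ B c) :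
    1 ≤ ∑ c ∈ s, ν (B c) := by
  rw [← h1]
  refine le_trans (measure_mono fun x _ => ?_) (measure_biUnion_finset_le s B)
  obtain ⟨c, hc1, hc2⟩ := hc x
  exact mem_biUnion hc1 hc2

theorem not_weak (h1 : ν univ = 1)
    (h : ∀ ε : ℝ≥0∞, 0 < ε → ∃ (s : Finset ℕ) (B : ℕ → Set X), (∀ c, MeasurableSet (B c)) ∧
      (∀ x, ∃ c ∈ s, x ∈ B c) ∧ ∀ N, 0 < N → ∑ c ∈ s, ν (B c ∩ F^[N] ⁻¹' B c) < ε) :
    ¬ IsPartiallyRigid F ν := by
  rintro ⟨δ, hδ, hδ1, n, -, hn, hB⟩
  have hδt : δ ≠ ∞ := ne_top_of_le_ne_top ENNReal.one_ne_top hδ1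
  obtain ⟨s, B, hm, hc, hs⟩ := h (δ / 2) (ENNReal.half_pos hδ.ne')
  have e : ∀ᶠ k in atTop, ∀ c ∈ s, δ / 2 * ν (B c) ≤ ν (B c ∩ F^[n k] ⁻¹' B c) := by
    refine (eventually_all_finset s).2 fun c _ => ?_
    by_cases h0 : ν (B c) = 0
    · simp [h0]
    have ht : ν (B c) ≠ ∞ :=
      ne_top_of_le_ne_top ENNReal.one_ne_top (h1 ▸ measure_mono (subset_univ _))
    have hlt : δ / 2 * ν (B c) < δ * ν (B c) :=
      ENNReal.mul_lt_mul_left h0 ht (ENNReal.half_lt_self hδ.ne' hδt)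
    exact (eventually_lt_of_lt_liminf (hlt.trans_le (hB _ (hm c)))).mono fun _ h => h.le
  obtain ⟨k, hk⟩ := e.exists
  have a := (Finset.sum_le_sum hk).trans_lt (hs _ (hn k))
  rw [← Finset.mul_sum] at a
  exact absurd (le_mul_of_one_le_right' (one_le_cover h1 s B hc)) a.not_ge

theorem not_strong (h1 : ν univ = 1)
    (h : ∃ (s : Finset ℕ) (B : ℕ → Set X), (∀ c, MeasurableSet (B c)) ∧
      (∀ x, ∃ c ∈ s, x ∈ B c) ∧ ∀ N, 0 < N → ∑ c ∈ s, ν (B c ∩ F^[N] '' B c) < 1 / 2) :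
    ¬ IsRigid F ν := by
  rintro ⟨n, -, hn, hB⟩
  obtain ⟨s, B, hm, hc, hs⟩ := h
  have t : Tendsto (fun k => ∑ c ∈ s, ν ((F^[n k] '' B c) ∆ B c)) atTop (𝓝 0) := by
    simpa using tendsto_finsetSum s fun c _ => hB _ (hm c)
  obtain ⟨k, hk⟩ := (t.eventually (gt_mem_nhds (show (0 : ℝ≥0∞) < 1 / 2 by norm_num))).exists
  have a : ∑ c ∈ s, ν (B c) ≤ ∑ c ∈ s, ν (B c ∩ F^[n k] '' B c) + ∑ c ∈ s, ν ((F^[n k] '' B c) ∆ B c) := by
    rw [← Finset.sum_add_distrib]
    refine Finset.sum_le_sum fun c _ => le_trans (measure_mono fun x hx => ?_) (measure_union_le _ _)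
    by_cases h : x ∈ F^[n k] '' B c
    · exact Or.inl ⟨hx, h⟩
    · exact Or.inr (Or.inr ⟨hx, h⟩)
  have b := ((one_le_cover h1 s B hc).trans a).trans_lt (ENNReal.add_lt_add (hs _ (hn k)) hk)
  rw [ENNReal.add_halves] at b
  exact lt_irrefl _ b

end abstract

theorem inv_eq_H (ν : Measure G) [IsProbabilityMeasure ν] (h : MeasurePreserving (· + (1 : G)) ν ν) :
    ν = H := by
  have h1 : ∀ n : ℕ, Measure.map ((n : G) + ·) ν = ν := by
    intro n
    have e : ((n : G) + ·) = (· + (1 : G))^[n] := by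
      funext x; simp [add_comm]
    rw [e]
    exact (h.iterate n).map_eq
  have h2 : ∀ g : G, Measure.map (g + ·) ν = ν := by
    intro g
    refine ext_of_forall_integral_eq_of_IsFiniteMeasure fun f => ?_
    have key : ∀ g : G, ∫ x, f x ∂(Measure.map (g + ·) ν) = ∫ x, f (g + x) ∂ν := fun g =>
      integral_map (measurable_const_add g).aemeasurable f.continuous.aestronglyMeasurable
    have hc : Continuous fun g : G => ∫ x, f (g + x) ∂ν :=
      continuous_of_dominated (bound := fun _ => ‖f‖)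
        (fun g => (f.continuous.comp (continuous_const_add g)).aestronglyMeasurable)
        (fun g => Eventually.of_forall fun x => f.norm_coe_le_norm _) (integrable_const _)
        (Eventually.of_forall fun x => f.continuous.comp (continuous_add_const x))
    rw [key]
    refine congrFun (PadicInt.denseRange_natCast.equalizer hc
      (continuous_const (y := ∫ x, f x ∂ν)) (funext fun n => ?_)) g
    change ∫ x, f ((n : G) + x) ∂ν = _
    rw [← key, h1]
    rfl
  have : ν.IsAddLeftInvariant := ⟨h2⟩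
  have e := Measure.isAddLeftInvariant_eq_smul ν H
  have e1 := congrArg (fun m : Measure G => m univ) e
  simp only [measure_univ, Measure.smul_apply, ENNReal.smul_def, smul_eq_mul, mul_one] at e1
  rw [e, show Measure.addHaarScalarFactor ν H = 1 by exact_mod_cast e1.symm, one_smul]

variable (t : Toep)

theorem eq_pr (x : t.X) (hx : (x : Y).1 ∈ t.G0) : x = t.pr (x : Y).1 := by
  apply Subtype.ext
  rw [t.pr_val hx]
  refine pure_le_nhds_iff.1 fun U hU => ?_
  obtain ⟨V, hV, h⟩ := t.local_lemma hx hU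
  exact h _ x.2 (mem_of_mem_nhds hV)

theorem measurable_fst' : Measurable fun x : t.X => (x : Y).1 := by fun_prop

theorem mu_fst {D : Set G} (hD : MeasurableSet D) : t.mu ((fun x : t.X => (x : Y).1) ⁻¹' D) = H D := by
  unfold Toep.mu
  rw [Measure.map_apply t.measurable_pr (measurable_fst' t hD)]
  apply measure_congr
  filter_upwards [t.G0_ae] with z hz
  change ((t.pr z : Y).1 ∈ D) = (z ∈ D)
  rw [t.pr_val hz]; rfl

theorem unique_inv (ν : Measure t.X) [IsProbabilityMeasure ν] (h : MeasurePreserving (⇑t.T) ν ν) :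
    ν = t.mu := by
  have hm := measurable_fst' t
  have := Measure.isProbabilityMeasure_map (μ := ν) hm.aemeasurable
  have e : Measure.map (fun x : t.X => (x : Y).1) ν = H := by
    refine inv_eq_H _ ⟨measurable_add_const _, ?_⟩
    rw [Measure.map_map (measurable_add_const _) hm]
    conv_rhs => rw [← h.map_eq, Measure.map_map hm h.measurable]
    rfl
  have hae : ∀ᵐ x : t.X ∂ν, (x : Y).1 ∈ t.G0 := ae_of_ae_map hm.aemeasurable (e ▸ t.G0_ae)
  unfold Toep.mu
  rw [← e, Measure.map_map t.measurable_pr hm]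
  conv_lhs => rw [← Measure.map_id (μ := ν)]
  refine Measure.map_congr ?_
  filter_upwards [hae] with x hx
  exact eq_pr t x hx

theorem ergodic_T : Ergodic (⇑t.T) t.mu := by
  refine Ergodic.of_mem_extremePoints ⟨⟨t.measurePreserving_T, inferInstance⟩, ?_⟩
  rintro a ⟨ha1, ha2⟩ b - -
  exact unique_inv t a ha1

theorem isRigid_T : IsRigid (⇑t.T) t.mu := by
  obtain ⟨n, h1, h2, h3⟩ := t.rigid
  refine ⟨n, h1, h2, fun B hB => (h3 B hB).congr fun k => ?_⟩
  have he : ∀ m, MeasurableEmbedding (⇑t.T)^[m] := by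
    intro m
    induction m with
    | zero => exact MeasurableEmbedding.id
    | succ m ih => exact ih.comp t.T.measurableEmbedding
  rw [← (t.measurePreserving_T.iterate (n k)).measure_preimage_emb (he _) ((_ '' B) ∆ B),
    preimage_symmDiff, preimage_image_eq _ (he _).injective, symmDiff_comm]

theorem isWeak_T : IsPartiallyRigid (⇑t.T) t.mu := by
  obtain ⟨n, h1, h2, h3⟩ := t.rigid
  refine ⟨1, one_pos, le_rfl, n, h1, h2, fun B hB => ?_⟩
  have a : Tendsto (fun k => t.mu B - t.mu (((⇑t.T)^[n k] ⁻¹' B) ∆ B)) atTop (𝓝 (t.mu B)) := by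
    simpa using ENNReal.Tendsto.sub tendsto_const_nhds (h3 B hB) (Or.inr ENNReal.zero_ne_top)
  rw [one_mul, ← a.liminf_eq]
  refine liminf_le_liminf (Eventually.of_forall fun k => tsub_le_iff_right.2 ?_)
  refine le_trans (measure_mono fun x hx => ?_) (measure_union_le _ _)
  by_cases h : x ∈ (⇑t.T)^[n k] ⁻¹' B
  · exact Or.inl ⟨hx, h⟩
  · exact Or.inr (Or.inr ⟨hx, h⟩)

/-- the induced map on the subspace -/
noncomputable def TA (x : t.A) : t.A := ⟨t.S x, by
  obtain ⟨r, -, h1, h2, -⟩ := t.isRet_S x x.2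
  rw [h1]; exact h2⟩

theorem TA_spec (x : t.A) : ∃ r, IsLeast {n | 1 ≤ n ∧ (⇑t.T)^[n] x ∈ t.A} r ∧
    (TA t x : t.X) = (⇑t.T)^[r] x := by
  obtain ⟨r, h0, h1, h2, h3⟩ := t.isRet_S x x.2
  refine ⟨r, ⟨⟨h0, h2⟩, fun j hj => ?_⟩, h1⟩
  by_contra hc
  exact h3 j hj.1 (not_le.1 hc) hj.2

theorem TA_iter (x : t.A) (N : ℕ) : ((TA t)^[N] x : t.X) = t.S^[N] x := by
  induction N with
  | zero => rfl
  | succ N ih => rw [Function.iterate_succ_apply', Function.iterate_succ_apply', ← ih]; rfl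

theorem TA_iter_fst (x : t.A) (N : ℕ) :
    ∃ r : ℕ, (((TA t)^[N] x : t.X) : Y).1 = ((x : t.X) : Y).1 + r := by
  induction N with
  | zero => exact ⟨0, by simp⟩
  | succ N ih =>
    obtain ⟨r, hr⟩ := ih
    obtain ⟨r', -, h⟩ := TA_spec t ((TA t)^[N] x)
    refine ⟨r + r', ?_⟩
    rw [Function.iterate_succ_apply', h, t.iter_fst, hr, Nat.cast_add, add_assoc]

theorem normalised_apply (s : Set t.A) :
    normalised t.mu t.A s = (t.mu t.A)⁻¹ * t.mu (Subtype.val '' s) := by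
  unfold normalised
  rw [Measure.smul_apply, smul_eq_mul,
    (MeasurableEmbedding.subtype_coe t.isClopen_A.isOpen.measurableSet).comap_apply]

theorem normalised_univ : normalised t.mu t.A univ = 1 := by
  rw [normalised_apply, image_univ, Subtype.range_coe,
    ENNReal.inv_mul_cancel t.mu_A_ne (measure_ne_top _ _)]

/-- the cylinder sets -/
def cyl (k c : ℕ) : Set tp.A := {x | ap (k * k) ((x : tp.X) : Y).1 = c}

theorem measurableSet_cyl (k c : ℕ) : MeasurableSet (cyl k c) :=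
  ((measurable_ap _).comp ((measurable_fst' tp).comp measurable_subtype_coe))
    (measurableSet_singleton c)

theorem cyl_cover (k : ℕ) (x : tp.A) : ∃ c ∈ Finset.range (hh k), x ∈ cyl k c :=
  ⟨_, Finset.mem_range.2 (ap_lt _ _), rfl⟩

theorem ret_ZK {N k c : ℕ} (hN : 0 < N) {x : tp.A} (hx : ((x : tp.X) : Y).1 ∈ tp.G0)
    (h1 : x ∈ cyl k c) (h2 : (TA tp)^[N] x ∈ cyl k c) :
    ∃ m : ℕ, ((x : tp.X) : Y).1 ∈ ZK N k m ∧
      (((TA tp)^[N] x : tp.X) : Y).1 = ((x : tp.X) : Y).1 + m := by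
  have e := eq_pr tp x hx
  have hA := x.2
  unfold cyl at h1 h2
  rw [mem_ofPred_eq] at h1 h2
  rw [TA_iter] at h2 ⊢
  generalize ((x : tp.X) : Y).1 = z at hx e h1
  rw [e] at hA h2 ⊢
  have hf : ff z = true := (tp.pr_mem_A hx).1 hA
  have hinf := tp.infinite_visits hx
  have hg : gg (tp.R N z) z = N := by
    rw [gg_count]; exact Nat.count_nth_of_infinite hinf N
  rw [tp.iter_S tp.isRet_S hx hf, tp.pr_val (tp.G0_add_nat hx _)] at h2 ⊢
  refine ⟨tp.R N z, ⟨⟨?_, ?_⟩, hf, hg, Nat.nth_mem_of_infinite hinf N⟩, rfl⟩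
  · refine Nat.pos_of_ne_zero fun h0 => ?_
    rw [h0] at hg
    simp only [gg, Finset.range_zero, Finset.sum_empty] at hg
    omega
  · change ap (k * k) (z + _) = c at h2
    rw [ap_add, h1] at h2
    have h3 := Nat.div_add_mod (c + tp.R N z) (2 ^ (k * k))
    exact ⟨(c + tp.R N z) / 2 ^ (k * k), by unfold hh; omega⟩

theorem sum_le_of_sub {k : ℕ} {U : Set G} (hU : MeasurableSet U) (D : ℕ → Set tp.A)
    (h1 : ∀ c, D c ⊆ cyl k c) (h2 : ∀ c, ∀ x ∈ D c, ((x : tp.X) : Y).1 ∈ tp.G0 → ((x : tp.X) : Y).1 ∈ U)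
    (s : Finset ℕ) : ∑ c ∈ s, normalised tp.mu tp.A (D c) ≤ (tp.mu tp.A)⁻¹ * H U := by
  simp only [normalised_apply]
  rw [← Finset.mul_sum]
  gcongr
  have hm : ∀ c, MeasurableSet (U ∩ {z | ap (k * k) z = c}) := fun c =>
    hU.inter (measurable_ap _ (measurableSet_singleton c))
  refine le_trans (Finset.sum_le_sum fun c _ => ?_) ((ENNReal.sum_le_tsum s).trans
    (tsum_le_of_disj _ hm (fun _ _ _ h h' => h.2.symm.trans h'.2) U fun _ => inter_subset_left))
  have h0 : H tp.G0ᶜ = 0 := tp.G0_ae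
  rw [← zero_add (H _), ← h0]
  refine le_trans ?_ (measure_union_le _ _)
  rw [← mu_fst tp (tp.measurableSet_G0.compl.union (hm c))]
  refine measure_mono ?_
  rintro _ ⟨x, hx, rfl⟩
  by_cases h : ((x : tp.X) : Y).1 ∈ tp.G0
  · exact Or.inr ⟨h2 c x hx h, h1 c hx⟩
  · exact Or.inl h

theorem measurableSet_ZK (N k m : ℕ) : MeasurableSet (ZK N k m) :=
  (MeasurableSet.const _).inter (measurableSet_ZZ N m)

theorem exists_small {ε : ℝ≥0∞} (hε : 0 < ε) : ∃ k, 20 ≤ k ∧ (tp.mu tp.A)⁻¹ * (5 * tl k) < ε := by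
  have a := ENNReal.Tendsto.const_mul (a := (tp.mu tp.A)⁻¹)
    (ENNReal.Tendsto.const_mul (a := 5) tendsto_tl (Or.inr (by norm_num)))
    (Or.inr (ENNReal.inv_ne_top.2 tp.mu_A_ne))
  rw [mul_zero, mul_zero] at a
  exact ((eventually_ge_atTop 20).and (a.eventually (gt_mem_nhds hε))).exists

theorem not_weak_TA : ¬ IsPartiallyRigid (TA tp) (normalised tp.mu tp.A) := by
  refine not_weak (normalised_univ tp) fun ε hε => ?_
  obtain ⟨k, hk, h⟩ := exists_small hε
  refine ⟨_, cyl k, measurableSet_cyl k, cyl_cover k, fun N hN => lt_of_le_of_lt ?_ h⟩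
  refine (sum_le_of_sub (U := ⋃ m, ZK N k m) (MeasurableSet.iUnion (measurableSet_ZK N k)) _
    (fun c => inter_subset_left) (fun c x hx h0 => ?_) _).trans ?_
  · obtain ⟨m, hm, -⟩ := ret_ZK hN h0 hx.1 hx.2
    exact mem_iUnion.2 ⟨m, hm⟩
  · gcongr
    exact (measure_iUnion_le _).trans (tsum_ZK N hk)

theorem not_strong_TA : ¬ IsRigid (TA tp) (normalised tp.mu tp.A) := by
  obtain ⟨k, hk, h⟩ := exists_small (show (0 : ℝ≥0∞) < 1 / 2 by norm_num)
  refine not_strong (normalised_univ tp)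
    ⟨_, cyl k, measurableSet_cyl k, cyl_cover k, fun N hN => lt_of_le_of_lt ?_ h⟩
  refine (sum_le_of_sub (U := ⋃ m : ℕ, (fun w : G => w - m) ⁻¹' ZK N k m)
    (MeasurableSet.iUnion fun m => measurable_sub_const _ (measurableSet_ZK N k m)) _
    (fun c => inter_subset_left) (fun c y hy h0 => ?_) _).trans ?_
  · obtain ⟨h1, x, hx, rfl⟩ := hy
    obtain ⟨r, hr⟩ := TA_iter_fst tp x N
    have h2 : ((x : tp.X) : Y).1 ∈ tp.G0 := by
      have := tp.G0_add_int h0 (-(r : ℤ))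
      rw [hr] at this
      simpa using this
    obtain ⟨m, hm, e⟩ := ret_ZK hN h2 hx h1
    refine mem_iUnion.2 ⟨m, ?_⟩
    rw [mem_preimage, e, add_sub_cancel_right]
    exact hm
  · gcongr
    refine (measure_iUnion_le _).trans (le_trans (le_of_eq ?_) (tsum_ZK N hk))
    simp only [sub_eq_add_neg, measure_preimage_add_right]

end Pool.Agent.MP_1dc7bd_an.H35
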