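import Pool.Agent.MP_1dc7bd_an.H35.Main

/-!
The itinerary with respect to the clopen set separates points: the system is a binary subshift.
-/

set_option autoImplicit false

open Filter Topology MeasureTheory Set

namespace Pool.Agent.MP_1dc7bd_an.H35

theorem snd_eq (t : Toep) (x : t.X) (n : ℤ) {b : Bool} (hb : ∀ᶠ w in 𝓝 ((x : Y).1 + n), t.f w = b) :
    (x : Y).2 n = b := by
  obtain ⟨V, h1, h2, h3⟩ := eventually_nhds_iff.1 hb
  have hVo : IsOpen ((fun q : Y => q.1 + n) ⁻¹' V) := h2.preimage (by fun_prop)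
  have hsub : t.Xs ⊆ ((fun q : Y => q.1 + n) ⁻¹' V)ᶜ ∪ {q : Y | q.2 n = b} := by
    refine closure_minimal ?_ (hVo.isClosed_compl.union (isClosed_eq (by fun_prop) continuous_const))
    rintro _ ⟨z, -, rfl⟩
    by_cases hz : z + n ∈ V
    · exact Or.inr (h1 _ hz)
    · exact Or.inl hz
  exact (hsub x.2).resolve_left fun h => h h3

theorem ap_nat (J l : ℕ) : ap J (l : G) = l % 2 ^ J := by
  unfold ap; rw [map_natCast, ZMod.val_natCast]

theorem sz_nat (n l : ℕ) : sz n (l : G) = sig n l := by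
  have h := sz_add (n := n) (J := 2 * n + 1) le_rfl 0 l
  have e : ap ((2 * n + 1) * (2 * n + 1)) 0 = 0 := by simp [ap]
  rwa [e, zero_add, zero_add] at h

theorem pow_lt_hh {n : ℕ} (hn : 20 ≤ n) : 2 ^ n < hh n :=
  Nat.pow_lt_pow_right (by norm_num) (by nlinarith)

theorem dg_pow {n m : ℕ} (hn : 20 ≤ n) (h : n ≤ m) : dg m (2 ^ n) = 0 := by
  unfold dg
  rw [Nat.div_eq_of_lt ((pow_lt_hh hn).trans_le (Nat.le_of_dvd (hh_pos m) (hh_dvd h))), Nat.zero_mod]

theorem ff_off {n : ℕ} (hn : 20 ≤ n) : ff ((2 ^ n : ℕ) : G) = false := by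
  rw [← Bool.not_eq_true, ff_iff]
  rintro (⟨m, hm, h⟩ | ⟨h, -⟩)
  · have h1 : ap (m + 1) ((2 ^ n : ℕ) : G) = 2 ^ m := by
      rcases sz_cases hm ((2 ^ n : ℕ) : G) with h2 | h2 | h2 <;> omega
    rw [ap_nat] at h1
    have e : n = m := by
      by_cases h2 : m + 1 ≤ n
      · rw [Nat.mod_eq_zero_of_dvd (pow_dvd_pow 2 h2)] at h1
        exact absurd h1 (by positivity : (0 : ℕ) < 2 ^ m).ne
      · rw [Nat.mod_eq_of_lt (Nat.pow_lt_pow_right (by norm_num) (by omega))] at h1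
        exact Nat.pow_right_injective le_rfl h1
    subst e
    rw [sz_nat] at h
    unfold sig sg at h
    rw [dg_pow hn (by omega : n ≤ 2 * n)] at h
    simp at h
  · rw [ap_nat, Nat.mod_eq_zero_of_dvd (pow_dvd_pow 2 (by omega))] at h
    omega

theorem ff_on {n : ℕ} (hn : 20 ≤ n) : ff ((2 ^ n + 1 * hh (2 * n) : ℕ) : G) = true := by
  rw [ff_iff]
  refine Or.inl ⟨n, hn, ?_⟩
  have hq : ∀ m, 1 < qq m := fun m => Nat.one_lt_two_pow (by omega)
  have h0 : dg (2 * n) (2 ^ n) + 1 < qq (2 * n) := by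
    rw [dg_pow hn (by omega)]; exact hq _
  rw [sz_nat]
  unfold sig sg
  have h1 : 2 ^ n < 2 ^ (n + 1) := Nat.pow_lt_pow_right (by norm_num) (by omega)
  rw [sh_dg h0, sh_ne h0 (by omega), sh_mod (by omega), dg_pow hn le_rfl, dg_pow hn (by omega),
    Nat.mod_eq_of_lt (pow_lt_hh hn), if_pos (hq n), Nat.mod_eq_of_lt h1, Nat.div_eq_of_lt h1,
    if_pos ⟨rfl, by simpa using ww_pos n⟩]

theorem near_zero {U : Set G} (hU : U ∈ 𝓝 (0 : G)) (b : Bool) :
    ∃ p ∈ U, p ≠ 0 ∧ p ≠ 1 ∧ ff p = b := by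
  have key : ∀ u : ℕ → ℕ, (∀ n, 20 ≤ n → 2 ^ n ∣ u n ∧ 0 < u n ∧ ff (u n : G) = b) →
      ∃ p ∈ U, p ≠ 0 ∧ p ≠ 1 ∧ ff p = b := by
    intro u hu
    have ht : Tendsto (fun n => (u n : G)) atTop (𝓝 0) := by
      refine squeeze_zero_norm' ?_ (tendsto_zero_iff_norm_tendsto_zero.1 tendsto_two_pow)
      filter_upwards [eventually_ge_atTop 20] with n hn
      obtain ⟨c, hc⟩ := (hu n hn).1
      rw [hc, Nat.cast_mul, norm_mul, Nat.cast_pow, Nat.cast_ofNat]
      exact mul_le_of_le_one_right (norm_nonneg _) (PadicInt.norm_le_one _)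
    obtain ⟨n, h1, h2⟩ := ((eventually_ge_atTop 20).and (ht.eventually hU)).exists
    obtain ⟨h3, h4, h5⟩ := hu n h1
    refine ⟨_, h2, by exact_mod_cast h4.ne', fun h => ?_, h5⟩
    have h6 : u n = 1 := by exact_mod_cast h
    have h7 : 2 ∣ u n := (dvd_pow_self 2 (by omega)).trans h3
    omega
  cases b
  · exact key (fun n => 2 ^ n) fun n hn => ⟨dvd_rfl, by positivity, ff_off hn⟩
  · refine key (fun n => 2 ^ n + 1 * hh (2 * n)) fun n hn => ⟨?_, by positivity, ff_on hn⟩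
    exact dvd_add dvd_rfl (Dvd.dvd.mul_left (pow_dvd_pow 2 (by nlinarith)) _)

theorem fst_aux {x y : tp.X} (h : (x : Y).2 = (y : Y).2) (h0 : (y : Y).1 - (x : Y).1 ≠ 0)
    (h1 : (y : Y).1 - (x : Y).1 ≠ 1) : False := by
  obtain ⟨d, hd⟩ : ∃ d, d = (y : Y).1 - (x : Y).1 := ⟨_, rfl⟩
  rw [← hd] at h0 h1
  have a : ∀ᶠ w in 𝓝 (0 : G), ∀ᶠ v in 𝓝 (w + d), ff v = ff d := by
    have t : Tendsto (fun w : G => w + d) (𝓝 0) (𝓝 d) := by
      simpa using (continuous_add_const d).tendsto 0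
    exact t.eventually (ff_eventually h0 h1).eventually_nhds
  obtain ⟨p, hp, p0, p1, hb⟩ := near_zero a.eventually_nhds (!ff d)
  obtain ⟨V, v1, v2, v3⟩ := eventually_nhds_iff.1
    (Eventually.and hp (ff_eventually p0 p1).eventually_nhds)
  have hden : DenseRange (fun n : ℕ => (x : Y).1 + (n : G)) :=
    (Homeomorph.addLeft (x : Y).1).surjective.denseRange.comp PadicInt.denseRange_natCast
      (Homeomorph.addLeft (x : Y).1).continuous
  obtain ⟨l, hl⟩ := hden.exists_mem_open v2 ⟨p, v3⟩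
  obtain ⟨w1, w2⟩ := v1 _ hl
  have e1 := snd_eq tp x l (b := ff p) (by rw [Int.cast_natCast]; exact w2)
  have e2 := snd_eq tp y l (b := ff d) (by
    have e : (y : Y).1 + ((l : ℤ) : G) = (x : Y).1 + l + d := by rw [hd]; push_cast; ring
    rw [e]; exact w1)
  rw [h, e2, hb] at e1
  simp at e1

theorem eq_of_snd {x y : tp.X} (h : (x : Y).2 = (y : Y).2) : x = y := by
  refine Subtype.ext (Prod.ext ?_ h)
  by_contra hne
  by_cases h1 : (y : Y).1 - (x : Y).1 = 1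
  · refine fst_aux h.symm (sub_ne_zero.2 hne) fun h2 => ?_
    have : (2 : G) = 0 := by linear_combination -h1 - h2
    exact two_ne_zero this
  · exact fst_aux h (sub_ne_zero.2 fun e => hne e.symm) h1

theorem iter_snd (t : Toep) (x : t.X) (n : ℕ) (j : ℤ) :
    ((⇑t.T)^[n] x : Y).2 j = (x : Y).2 (j + n) := by
  induction n generalizing j with
  | zero => simp
  | succ n ih =>
    rw [Function.iterate_succ_apply', Toep.T_val]
    change ((⇑t.T)^[n] x : Y).2 (j + 1) = _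
    rw [ih, show j + 1 + (n : ℤ) = j + ((n + 1 : ℕ) : ℤ) by push_cast; ring]

theorem separates (x y : tp.X)
    (h : ∀ n : ℕ, ((⇑tp.T)^[n] x ∈ tp.A ↔ (⇑tp.T)^[n] y ∈ tp.A) ∧
      ((⇑tp.T.symm)^[n] x ∈ tp.A ↔ (⇑tp.T.symm)^[n] y ∈ tp.A)) : x = y := by
  refine eq_of_snd (funext fun j => ?_)
  have back : ∀ (u : tp.X) (n : ℕ), ((⇑tp.T.symm)^[n] u : Y).2 0 = (u : Y).2 (-n) := by
    intro u n
    have := iter_snd tp ((⇑tp.T.symm)^[n] u) n (-n)
    rw [(Function.LeftInverse.iterate tp.T.apply_symm_apply n) u, neg_add_cancel] at this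
    exact this.symm
  rw [Bool.eq_iff_iff]
  obtain ⟨n, rfl | rfl⟩ := j.eq_nat_or_neg
  · have := (h n).1
    simpa only [Toep.A, mem_ofPred_eq, iter_snd, zero_add] using this
  · have := (h n).2
    simpa only [Toep.A, mem_ofPred_eq, back] using this

end Pool.Agent.MP_1dc7bd_an.H35
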